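import Pool.Agent.K.MP_b75a1e_co.C11

set_option autoImplicit false

open Pool.Agent.P.MP_b75a1e_co

namespace Pool.Agent.Results.MP_b75a1e_co.CofinitelyMany

/-- Only finitely many square-free `m ≡ 3 (mod 4)` can lack a convex equilateral `p`-gon, where `p`
is the largest prime factor of `m`. -/
theorem result : {m : ℕ | Squarefree m ∧ m % 4 = 3 ∧
    ∃ p : ℕ, p.Prime ∧ p ∣ m ∧ (∀ q, q.Prime → q ∣ m → q ≤ p) ∧ ¬ HasGon m p}.Finite := by
  obtain ⟨p0, h⟩ := EG.all_large
  refine (Set.finite_le_nat (4 ^ p0)).subset ?_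
  rintro m ⟨hsq, h4, p, hp, hpm, hmax, hn⟩
  have h1 : p ≤ p0 := by
    by_contra hc
    exact hn (h m p hsq h4 hp hpm hmax (by omega))
  exact (EG.m_le_four_pow hsq hmax).trans (Nat.pow_le_pow_right (by norm_num) h1)

end Pool.Agent.Results.MP_b75a1e_co.CofinitelyMany
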