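import Pool.Agent.K.MP_b75a1e_co.C12

set_option autoImplicit false

open Pool.Agent.P.MP_b75a1e_co

namespace Pool.Agent.Results.MP_b75a1e_co.PrimeGap

/-- The conjecture holds unless a second prime factor of `m` lies just below the largest one. -/
theorem result (m p : ℕ) (hsq : Squarefree m) (h4 : m % 4 = 3) (hp : p.Prime) (h29 : 29 ≤ p)
    (hpm : p ∣ m) (h : ∀ q, q.Prime → q ∣ m → q ≠ p →
      q + 2 * min (Nat.primeCounting q) (Nat.log 3 m + 4) ≤ p + 4) : HasGon m p :=
  gap hsq h4 hp h29 hpm h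

end Pool.Agent.Results.MP_b75a1e_co.PrimeGap
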