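import Pool.Agent.K.MP_b75a1e_co.C13

set_option autoImplicit false

open Pool.Agent.P.MP_b75a1e_co

namespace Pool.Agent.Results.MP_b75a1e_co.QuasiPoly

/-- The conjecture holds whenever `log m ≤ (log p) ^ 2 / 200`, `p` the largest prime factor of `m`. -/
theorem result (m p : ℕ) (hsq : Squarefree m) (h4 : m % 4 = 3) (hp : p.Prime) (hpm : p ∣ m)
    (hmax : ∀ q, q.Prime → q ∣ m → q ≤ p) (h : Real.log m ≤ Real.log p ^ 2 / 200) : HasGon m p :=
  quasi hsq h4 hp hpm hmax h

end Pool.Agent.Results.MP_b75a1e_co.QuasiPoly
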